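import Pool.Agent.Y97.AB.Tau
import Pool.Agent.Y710.AB.One
import Pool.Agent.Y668.AB.Prod
import Pool.Agent.Y46.AB.TauA
import Pool.Agent.Y248.FD.Cup

/-!
# Morphisms between powers act on the first cohomology through algebraic matrices
(helper333, job AB-UU of helper97)
-/

set_option linter.unusedSectionVars false
set_option linter.unusedVariables false

open CategoryTheory AlgebraicGeometry Finset

universe u v

namespace Pool.Agent.Y333.AB

open Pool.Agent.H914 Pool.Agent.H914.VarClass Pool.Agent.H914.VarClass.Obj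
  Pool.Agent.H914.WeilCohomology Pool.Agent.H281R3.HT Pool.Agent.W552 Pool.Agent.W539.Ker
  Pool.Agent.Y97 Pool.Agent.Y97.FD Pool.Agent.Y97.AB

variable {k : Type u} [Field k] {𝒱 : VarClass k} {ops : CycleOps 𝒱}
  {W : WeilCohomology.{u, v} ops} {P : Polarized 𝒱} {f : Module.End W.K (W.H P.X)}

/-- The form of a power at the unit classes. -/
lemma bfs_one (G : Gp W P.X P.D f) {q : ℚ} (hq1 : bf W P.X P.D f 1 1 = (q : W.K)) (t : ℕ) :
    bfs W P f t 1 1 = (q : W.K) ^ (t + 1) := by
  induction t with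
  | zero => rw [zero_add, pow_one]; exact hq1
  | succ t ih =>
    have h1 := bfs_ext G t 1 1 1 1
    have h2 : ext W (X := P.X) (Y := (power ops P t).X) 1 1 = 1 := by
      rw [H281R3.HT.ext, map_one, map_one, mul_one]
    rw [h2, hq1, ih] at h1
    refine h1.trans ?_
    ring

/-- A class on the square which represents the form. -/
lemma exists_eps {X : 𝒱.Obj} {D : X.Cycles} {g : Module.End W.K (W.H X)} (G : Gp W X D g) :
    ∃ ε : W.H (X.prod X), AS W _ ε ∧ ∀ a a' : W.H X,
      W.tr (X.prod X) (ext W a a' * ε) = bf W X D g a a' := by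
  have hu : AOp W (X.prod X) (X.prod X) (extOp W (1 : Module.End W.K (W.H X)) (st W X D g)) :=
    AOp.one.ext G.gd.sa
  obtain ⟨u', hu', hadj⟩ := hu.adj
  have hΔ : AS W (X.prod X) (W.push (diag X) (1 : W.H X)) := AS.one.push _
  refine ⟨_, hu'.apply hΔ, fun a a' => ?_⟩
  have e1 : diag X ≫ snd X X = 𝟙 X := Obj.lift_snd _ _
  have e2 : diag X ≫ fst X X = 𝟙 X := Obj.lift_fst _ _
  have h1 : extOp W (1 : Module.End W.K (W.H X)) (st W X D g) (ext W a a') =
      ext W a (st W X D g a') := extOp_tmul _ _ _ _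
  rw [← hadj, h1, ← hΔ.comm, W.tr_push, one_mul, bf_apply]
  congr 1
  simp only [H281R3.HT.ext]
  rw [map_mul (W.map (diag X)), ← W.map_comp, ← W.map_comp, e1, e2, W.map_id, W.map_id]

/-- The class of degree one on `X`. -/
lemma ev_zero (b : HB W P.X) (i : Fin 1) (a : Fin (N1 b)) :
    ev (ops := ops) b 0 i a = e1 b a := W.map_id P.X (e1 b a)

lemma ev_fst (b : HB W P.X) (t : ℕ) (a : Fin (N1 b)) :
    ev (ops := ops) b (t + 1) 0 a = W.map (fst P.X (power ops P t).X) (e1 b a) := rfl

lemma ev_snd (b : HB W P.X) (t : ℕ) (j : Fin (t + 1)) (a : Fin (N1 b)) :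
    ev (ops := ops) b (t + 1) j.succ a =
      W.map (snd P.X (power ops P t).X) (ev (ops := ops) b t j a) :=
  W.map_comp (snd P.X (power ops P t).X) (pr ops P t j) (e1 b a)

/-- The first cohomology of `X`. -/
lemma span_one (b : HB W P.X) {v : W.H P.X} (hv : v ∈ W.gr P.X 1) :
    ∃ V : Fin (N1 b) → W.K, v = ∑ a, V a • e1 b a := by
  classical
  refine ⟨fun a => b.e.repr v (j1 b a), ?_⟩
  have h1 : v = ∑ i, b.e.repr v i • proj (W.isInternal P.X) 1 (b.e i) := by
    conv_lhs => rw [← proj_same (W.isInternal P.X) hv, ← b.e.sum_repr v]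
    rw [map_sum]
    refine Finset.sum_congr rfl fun i _ => ?_
    rw [map_smul]
  have h2 := Pool.Agent.Y710.AB.sum_j1 b
    (fun i => b.e.repr v i • proj (W.isInternal P.X) 1 (b.e i)) (fun i hi => by
      rw [proj_ne _ (b.mem i) hi, smul_zero])
  refine h1.trans (h2.trans ?_)
  refine Finset.sum_congr rfl fun a _ => ?_
  rw [proj_same _ (j1_dg b a ▸ b.mem (j1 b a))]
  rfl

/-- The first cohomology of a power. -/
lemma span_pow (b : HB W P.X) : ∀ (t : ℕ) {v : W.H (power ops P t).X}
    (hv : v ∈ W.gr (power ops P t).X 1),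
    ∃ V : Fin (t + 1) → Fin (N1 b) → W.K, v = ∑ j, ∑ a, V j a • ev (ops := ops) b t j a := by
  intro t
  induction t with
  | zero =>
    intro v hv
    obtain ⟨V, hV⟩ := span_one b hv
    refine ⟨fun _ => V, ?_⟩
    rw [Fin.sum_univ_one]
    refine hV.trans (Finset.sum_congr rfl fun a _ => ?_)
    exact congrArg (V a • ·) (ev_zero b 0 a).symm
  | succ t ih =>
    intro v hv
    obtain ⟨v₁, h₁, v₂, h₂, h⟩ :=
      Pool.Agent.Y668.AB.gr1_prod (X := P.X) (Y := (power ops P t).X) hv
    obtain ⟨V₁, hV₁⟩ := span_one b h₁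
    obtain ⟨V₂, hV₂⟩ := ih h₂
    refine ⟨Fin.cons V₁ V₂, ?_⟩
    rw [Fin.sum_univ_succ]
    have e1' : W.map (fst P.X (power ops P t).X) v₁ =
        ∑ a, V₁ a • ev (ops := ops) b (t + 1) 0 a := by
      rw [hV₁, map_sum]
      refine Finset.sum_congr rfl fun a _ => ?_
      rw [map_smul]
      rfl
    have e2' : W.map (snd P.X (power ops P t).X) v₂ =
        ∑ j : Fin (t + 1), ∑ a, V₂ j a • ev (ops := ops) b (t + 1) j.succ a := by
      rw [hV₂, map_sum]
      refine Finset.sum_congr rfl fun j _ => ?_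
      rw [map_sum]
      refine Finset.sum_congr rfl fun a _ => ?_
      rw [map_smul]
      exact congrArg (V₂ j a • ·) (ev_snd b t j a).symm
    refine h.trans ?_
    rw [e1', e2']
    rfl

/-- The form on the classes of degree one. -/
lemma bfs_ev (G : Gp W P.X P.D f) (b : HB W P.X) {q : ℚ} (hq : q ≠ 0)
    (hq1 : bf W P.X P.D f 1 1 = (q : W.K)) : ∀ (t : ℕ) (j j' : Fin (t + 1))
    (x y : Fin (N1 b)), bfs W P f t (ev (ops := ops) b t j x) (ev b t j' y) =
      if j = j' then (q : W.K) ^ (t + 1) * G1 b f x y else 0 := by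
  have hqK : (q : W.K) ≠ 0 := by exact_mod_cast hq
  have hG : ∀ x y : Fin (N1 b), bf W P.X P.D f (e1 b x) (e1 b y) = (q : W.K) * G1 b f x y := by
    intro x y
    rw [G1, Matrix.of_apply, hq1, mul_div_cancel₀ _ hqK]
  intro t
  induction t with
  | zero =>
    intro j j' x y
    obtain rfl : j = 0 := Fin.fin_one_eq_zero j
    obtain rfl : j' = 0 := Fin.fin_one_eq_zero j'
    rw [if_pos rfl, ev_zero, ev_zero]
    have h0 : (q : W.K) ^ (0 + 1) = (q : W.K) := by norm_num
    exact (hG x y).trans (congrArg (· * G1 b f x y) h0.symm)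
  | succ t ih =>
    have hf : ∀ x : Fin (N1 b), ev (ops := ops) b (t + 1) 0 x =
        ext W (X := P.X) (Y := (power ops P t).X) (e1 b x) 1 := by
      intro x
      rw [H281R3.HT.ext, map_one, mul_one]
      rfl
    have hs : ∀ (j : Fin (t + 1)) (x : Fin (N1 b)), ev (ops := ops) b (t + 1) j.succ x =
        ext W (X := P.X) (Y := (power ops P t).X) 1 (ev b t j x) := by
      intro j x
      rw [H281R3.HT.ext, map_one, one_mul]
      exact ev_snd b t j x
    intro j j' x y
    refine Fin.cases ?_ (fun i => ?_) j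
    · refine Fin.cases ?_ (fun i' => ?_) j'
      · rw [if_pos rfl, hf, hf]
        refine (bfs_ext G t (e1 b x) (e1 b y) 1 1).trans ?_
        rw [hG, bfs_one G hq1]
        ring
      · rw [if_neg (Fin.succ_ne_zero i').symm, hf, hs]
        refine (bfs_ext G t (e1 b x) 1 1 (ev b t i' y)).trans ?_
        rw [G.fr.bf_deg (e1_mem b x) (W.one_mem P.X) one_ne_zero, zero_mul]
    · refine Fin.cases ?_ (fun i' => ?_) j'
      · rw [if_neg (Fin.succ_ne_zero i), hf, hs]
        refine (bfs_ext G t 1 (e1 b y) (ev b t i x) 1).trans ?_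
        rw [G.fr.bf_deg (W.one_mem P.X) (e1_mem b y) zero_ne_one, zero_mul]
      · rw [hs, hs]
        refine (bfs_ext G t 1 1 (ev b t i x) (ev b t i' y)).trans ?_
        rw [hq1, ih]
        by_cases h : i = i'
        · rw [if_pos h, if_pos (congrArg Fin.succ h)]
          ring
        · rw [if_neg h, if_neg (fun h' => h (Fin.succ_injective _ h')), mul_zero]

/-- **Morphisms between powers act on the first cohomology through algebraic matrices.** -/
theorem exists_uu (G : Gp W P.X P.D f) (b : HB W P.X) {q : ℚ} (hq : q ≠ 0)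
    (hq1 : bf W P.X P.D f 1 1 = (q : W.K)) {s t : ℕ}
    (h : (power ops P t).X ⟶ (power ops P s).X) :
    ∃ U : Fin (s + 1) → Fin (t + 1) → Matrix (Fin (N1 b)) (Fin (N1 b)) W.K,
      (∀ i a, W.map h (ev (ops := ops) b s i a) = ∑ j, ∑ a', U i j a' a • ev b t j a') ∧
      ∀ i j, ∃ w : (Fin 2 → Fin (N1 b)) → W.K, A1 (ops := ops) b 2 w ∧
        U i j = Matrix.of (fun x y => w ![x, y]) * G1 b f := by
  classical
  obtain ⟨hanti, hdet⟩ := Pool.Agent.Y710.AB.G1_cond G b hq hq1
  have hqK : (q : W.K) ≠ 0 := by exact_mod_cast hq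
  choose V hV using fun (i : Fin (s + 1)) (a : Fin (N1 b)) =>
    span_pow b t (W.map_mem h (ev_mem (ops := ops) b s i a))
  refine ⟨fun i j => Matrix.of fun a' a => V i a j a', fun i a => hV i a, fun i j => ?_⟩
  -- the class on the square
  obtain ⟨ε, hε, hεb⟩ := exists_eps (gp_frm G t)
  set φ : (power ops P t).X.prod (power ops P t).X ⟶ P.X.prod P.X :=
    Obj.lift (fst (power ops P t).X (power ops P t).X ≫ pr ops P t j)
      (snd (power ops P t).X (power ops P t).X ≫ (h ≫ pr ops P s i)) with hφ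
  set c : W.H (power ops P 1).X := st W (power ops P 1).X (power ops P 1).D (frm W P f 1)
    (W.push φ ε) with hc
  have hcA : AS W _ c := (gp_frm G 1).fr.st_AS (AS.push φ hε)
  set τ : (Fin 2 → Fin (N1 b)) → W.K := tau (ops := ops) b f 1 ![0, 1] c with hτ
  have hτA : A1 (ops := ops) b 2 τ := Pool.Agent.Y46.AB.tau_a1 G b hq hq1 1 ![0, 1] hcA
  have hM : ∀ x y : Fin (N1 b), bfs W P f t (ev (ops := ops) b t j x)
      (W.map h (ev (ops := ops) b s i y)) = act (G1 b f) τ ![x, y] := by
    intro x y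
    rw [hτ, act_tau b hdet]
    have h1 : mon (ops := ops) b 1 ![0, 1] ![x, y] = ext W (X := P.X) (Y := P.X)
        (e1 b x) (e1 b y) := by
      have h2 : ev (ops := ops) b 1 1 y = W.map (snd P.X P.X) (e1 b y) := by
        refine (ev_snd b 0 0 y).trans ?_
        rw [ev_zero]
        rfl
      have h3 : mon (ops := ops) b 1 ![0, 1] ![x, y] =
          ev (ops := ops) b 1 0 x * (ev (ops := ops) b 1 1 y * 1) := by
        rw [Pool.Agent.Y97.AB.mon, List.ofFn_succ, List.ofFn_succ, List.ofFn_zero, List.prod_cons,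
          List.prod_cons, List.prod_nil]
        rfl
      rw [h3, h2, mul_one]
      rfl
    have h4 : bfs W P f 1 (mon (ops := ops) b 1 ![0, 1] ![x, y]) c =
        W.tr (P.X.prod P.X) (ext W (e1 b x) (e1 b y) * W.push φ ε) := by
      rw [h1, hc, bfs, bf_apply, (gp_frm G 1).gd.st_st_apply]
      rfl
    rw [h4, ← Pool.Agent.Y46.AB.tr_map_adj' φ]
    have h5 : W.map φ (ext W (e1 b x) (e1 b y)) =
        ext W (ev (ops := ops) b t j x) (W.map h (ev (ops := ops) b s i y)) := by
      rw [hφ, map_ext, W.map_comp, W.map_comp, W.map_comp]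
      rfl
    rw [h5, hεb]
    rfl
  -- the matrices
  set T : Matrix (Fin (N1 b)) (Fin (N1 b)) W.K := Matrix.of fun x y => τ ![x, y] with hT
  have hact : ∀ x y : Fin (N1 b), act (G1 b f) τ ![x, y] =
      (G1 b f * T * (G1 b f).transpose) x y := by
    intro x y
    rw [act_apply, ← (finTwoArrowEquiv (Fin (N1 b))).symm.sum_comp, Fintype.sum_prod_type,
      Matrix.mul_apply, Finset.sum_comm]
    refine Finset.sum_congr rfl fun v _ => ?_
    rw [Matrix.mul_apply, Finset.sum_mul]
    refine Finset.sum_congr rfl fun u _ => ?_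
    rw [Fin.prod_univ_two]
    have h1 : (finTwoArrowEquiv (Fin (N1 b))).symm (u, v) = ![u, v] := rfl
    rw [h1]
    simp only [Matrix.cons_val_zero, Matrix.cons_val_one, hT, Matrix.of_apply,
      Matrix.transpose_apply]
    ring
  have htr : (G1 b f).transpose = -(G1 b f) := by
    funext x y
    rw [Matrix.transpose_apply, Matrix.neg_apply]
    exact hanti x y
  have hU : ∀ x y : Fin (N1 b), bfs W P f t (ev (ops := ops) b t j x)
      (W.map h (ev (ops := ops) b s i y)) =
      (q : W.K) ^ (t + 1) * (G1 b f * Matrix.of fun a' a => V i a j a') x y := by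
    intro x y
    rw [hV i y, map_sum, Finset.sum_eq_single j]
    · rw [map_sum, Matrix.mul_apply, Finset.mul_sum]
      refine Finset.sum_congr rfl fun a' _ => ?_
      rw [map_smul, smul_eq_mul, bfs_ev G b hq hq1, if_pos rfl, Matrix.of_apply]
      ring
    · intro j' _ hj'
      rw [map_sum]
      refine Finset.sum_eq_zero fun a' _ => ?_
      rw [map_smul, bfs_ev G b hq hq1, if_neg (Ne.symm hj'), smul_zero]
    · intro h'
      exact absurd (Finset.mem_univ _) h'
  refine ⟨((-(q ^ (t + 1))⁻¹ : ℚ) : W.K) • τ, ((Pool.Agent.Y710.AB.a1_closed G b hq hq1).sub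
    2).smul _ hτA, ?_⟩
  have hW : (Matrix.of fun x y => (((-(q ^ (t + 1))⁻¹ : ℚ) : W.K) • τ) ![x, y]) =
      (-((q : W.K) ^ (t + 1))⁻¹) • T := by
    funext x y
    rw [Matrix.of_apply, Pi.smul_apply, Matrix.smul_apply, hT, Matrix.of_apply]
    congr 1
    push_cast
    rfl
  rw [hW]
  have hmul : G1 b f * (Matrix.of fun a' a => V i a j a') =
      G1 b f * ((-((q : W.K) ^ (t + 1))⁻¹) • T * G1 b f) := by
    funext x y
    have h1 := (hU x y).symm.trans ((hM x y).trans (hact x y))
    rw [htr, Matrix.mul_neg, Matrix.neg_apply] at h1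
    rw [Matrix.smul_mul, Matrix.mul_smul, Matrix.smul_apply, smul_eq_mul, ← Matrix.mul_assoc]
    have h2 : (q : W.K) ^ (t + 1) ≠ 0 := pow_ne_zero _ hqK
    rw [neg_mul, ← mul_neg, ← h1, ← mul_assoc, inv_mul_cancel₀ h2, one_mul]
  have h3 : (G1 b f)⁻¹ * G1 b f = 1 := Matrix.nonsing_inv_mul _ (isUnit_iff_ne_zero.2 hdet)
  have h4 := congrArg (fun N => (G1 b f)⁻¹ * N) hmul
  simp only [← Matrix.mul_assoc, h3, Matrix.one_mul] at h4
  exact h4

end Pool.Agent.Y333.AB
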